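import Mathlib
import Pool.Agent.Helper518_PW.Step

/-!
# MP_922422_co: the value `2 k ^ h` is attained, at linearly many positions

A partial word over the alphabet `Fin k` is a `List (Option (Fin k))`; a hole is `none`.
-/

namespace Pool.Agent.Results.MP_922422_co.LinearlyManyExtremal

/-- The full word `X` occurs at position `p` of the partial word `w`: every position
`p + x` with `x < |X|` exists in `w` and carries a hole or the letter `X[x]`. -/
def OccursAt {k : ℕ} (w : List (Option (Fin k))) (X : List (Fin k)) (p : ℕ) : Prop :=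
  ∀ x, x < X.length → w[p + x]? = some none ∨ w[p + x]? = some (X[x]?)

/-- The set of full squares `v ++ v` (`v` nonempty) whose rightmost occurrence in `w` begins
at position `i`. -/
def Sq {k : ℕ} (w : List (Option (Fin k))) (i : ℕ) : Set (List (Fin k)) :=
  {X | (∃ v, v ≠ [] ∧ X = v ++ v) ∧ OccursAt w X i ∧ ∀ p, i < p → ¬ OccursAt w X p}

open Helper518PW

theorem Sq_finite {k : ℕ} (w : List (Option (Fin k))) (i : ℕ) : (Sq w i).Finite := by
  apply (List.finite_length_le (Fin k) w.length).subset
  rintro X ⟨⟨v, hv, hX⟩, hocc, _⟩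
  have hpos : 0 < X.length := by
    rw [hX, List.length_append]
    have := List.length_pos_iff.2 hv
    omega
  have h := hocc (X.length - 1) (by omega)
  have hlt : i + (X.length - 1) < w.length := by
    by_contra hge
    rw [List.getElem?_eq_none (by omega)] at h
    simp at h
  show X.length ≤ w.length
  omega

theorem part1 (k h : ℕ) (hk : 2 ≤ k) (H : Finset ℕ) (hH : H.Nonempty) (hc : H.card = h) (n : ℕ)
    (hn : (2 * H.max' hH + 5) * 40 ^ (k ^ h) ≤ n) :
    ∃ w : List (Option (Fin k)), w.length = n ∧ (∀ j, w[j]? = some none ↔ j ∈ H) ∧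
      ∀ i ≤ H.min' hH, 2 * k ^ h ≤ (Sq w i).ncard := by
  classical
  obtain ⟨b, hb⟩ : ∃ b : Fin k, b = ⟨0, by omega⟩ := ⟨_, rfl⟩
  obtain ⟨a, ha⟩ : ∃ a : Fin k, a = ⟨1, by omega⟩ := ⟨_, rfl⟩
  have hab : a ≠ b := by
    rw [ha, hb]
    intro h
    have := congrArg Fin.val h
    simp at this
  have S : Setup H (H.min' hH) (H.max' hH + 1) (H.max' hH + 2) a b := by
    refine ⟨hab, ?_, ?_, ?_, by omega⟩
    · intro x hx; exact Finset.min'_le _ _ hx
    · intro x hx
      have := Finset.le_max' _ _ hx
      omega
    · have := Finset.le_max' _ _ (Finset.min'_mem H hH)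
      omega
  obtain ⟨f, l, T, hl, hall⟩ := all_items S
  have h6 := T.s6
  rw [Fintype.card_fin, hc, show H.max' hH + 1 + (H.max' hH + 2) + 2 = 2 * H.max' hH + 5 by ring]
    at hl
  have hln : l ≤ n := hl.trans hn
  obtain ⟨w, hw⟩ : ∃ w : List (Option (Fin k)), w = (List.range n).map f := ⟨_, rfl⟩
  have wlt : ∀ j, j < n → w[j]? = some (f j) := by
    intro j hj
    rw [hw, List.getElem?_map, List.getElem?_range hj]
    rfl
  have wlen : w.length = n := by rw [hw]; simp
  have wge : ∀ j, n ≤ j → w[j]? = none := by
    intro j hj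
    apply List.getElem?_eq_none
    omega
  refine ⟨w, wlen, ?_, ?_⟩
  · intro j
    by_cases hj : j < n
    · rw [wlt j hj]
      constructor
      · intro h
        exact (T.s1 j).1 (Option.some.inj h)
      · intro h
        rw [(T.s1 j).2 h]
    · rw [wge j (by omega)]
      constructor
      · intro h; simp at h
      · intro h
        have := S.hmax j h
        omega
  · intro i hi
    choose q1 q2 h12 I1 I2 using hall i hi
    -- the words
    obtain ⟨q, hq⟩ : ∃ q : (H → Fin k) × Bool → ℕ, q = fun d => if d.2 then q1 d.1 else q2 d.1 :=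
      ⟨_, rfl⟩
    have I : ∀ d, It f l (H.max' hH + 1 + (H.max' hH + 2) + 2) i (ext b d.1) (q d) := by
      rintro ⟨c, t⟩
      rw [hq]
      cases t
      · exact I2 c
      · exact I1 c
    obtain ⟨φ, hφ⟩ : ∃ φ : (H → Fin k) × Bool → List (Fin k),
        φ = fun d => (List.range (q d + q d)).map (fun x => F (ext b d.1) f (i + x)) := ⟨_, rfl⟩
    have φlen : ∀ d, (φ d).length = q d + q d := by
      intro d; rw [hφ]; simp
    have φget : ∀ d x, x < q d + q d → (φ d)[x]? = some (F (ext b d.1) f (i + x)) := by
      intro d x hx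
      rw [hφ]
      simp only [List.getElem?_map, List.getElem?_range hx]
      rfl
    have φinj : Function.Injective φ := by
      intro d e hde
      have hqe : q d = q e := by
        have h1 := φlen d
        have h2 := φlen e
        rw [hde] at h1
        omega
      have h1 : d.1 = e.1 := by
        funext ⟨x, hx⟩
        have k1 := S.hmin x hx
        have k2 := S.hmax x hx
        have k3 := (I d).ge
        have g1 := φget d (x - i) (by omega)
        have g2 := φget e (x - i) (by omega)
        rw [hde, g2] at g1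
        have g3 := Option.some.inj g1
        rw [show i + (x - i) = x by omega, F_none ((T.s1 x).2 hx), F_none ((T.s1 x).2 hx),
          ext_mem hx, ext_mem hx] at g3
        exact g3.symm
      have h2 : d.2 = e.2 := by
        rw [hq] at hqe
        simp only at hqe
        rw [h1] at hqe
        have := h12 e.1
        cases hd : d.2 <;> cases he : e.2 <;> simp [hd, he] at hqe ⊢ <;> omega
      exact Prod.ext h1 h2
    have φmem : ∀ d, φ d ∈ Sq w i := by
      intro d
      have hle := (I d).le
      have hpos := (I d).pos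
      refine ⟨⟨(List.range (q d)).map (fun x => F (ext b d.1) f (i + x)), ?_, ?_⟩, ?_, ?_⟩
      · intro h
        have := congrArg List.length h
        simp at this
        omega
      · rw [hφ]
        simp only
        rw [List.range_add, List.map_append, List.map_map]
        congr 1
        apply List.map_congr_left
        intro x hx
        have := (I d).per x (List.mem_range.1 hx)
        simp only [Function.comp]
        rw [← add_assoc]
        exact this
      · intro x hx
        rw [φlen] at hx
        rw [wlt _ (by omega), φget d x hx]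
        rcases F_or (c := ext b d.1) (f := f) (i + x) with h | h
        · left; rw [h]
        · right; rw [← h]
      · intro p hp hocc
        apply (I d).uni p hp
        intro x hx
        have h := hocc x (by rw [φlen]; omega)
        rw [φget d x (by omega)] at h
        by_cases hpx : p + x < n
        · rw [wlt _ hpx] at h
          rcases h with h | h
          · left; exact Option.some.inj h
          · right; exact Option.some.inj h
        · rw [wge _ (by omega)] at h
          simp at h
    have hsub : ((Finset.univ.image φ : Finset (List (Fin k))) : Set (List (Fin k))) ⊆ Sq w i := by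
      intro X hX
      rw [Finset.mem_coe, Finset.mem_image] at hX
      obtain ⟨d, _, rfl⟩ := hX
      exact φmem d
    have hcard := Set.ncard_le_ncard hsub (Sq_finite w i)
    rw [Set.ncard_coe_finset, Finset.card_image_of_injective _ φinj, Finset.card_univ,
      Fintype.card_prod, Fintype.card_fun, Fintype.card_bool, Fintype.card_coe,
      Fintype.card_fin, hc] at hcard
    omega

/-- **Result.** Let `k ≥ 2` and `h ≥ 1`.
(1) For every set `H` of `h` positions and every `n ≥ (2 max H + 5) 40 ^ (k ^ h)` there is a partial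
word of length `n` over `k` letters, with hole set exactly `H`, such that for every position
`i ≤ min H` at least `2 k ^ h` distinct full squares have their rightmost occurrence at `i`.
(2) With `C = (2 h + 5) 40 ^ (k ^ h)`: for every `n ≥ C` some partial word of length `n` with exactly
`h` holes has at least `n / C` such positions. -/
theorem result (k h : ℕ) (hk : 2 ≤ k) (hh : 1 ≤ h) :
    (∀ (H : Finset ℕ) (hH : H.Nonempty), H.card = h →
      ∀ n, (2 * H.max' hH + 5) * 40 ^ (k ^ h) ≤ n →
        ∃ w : List (Option (Fin k)), w.length = n ∧ (∀ j, w[j]? = some none ↔ j ∈ H) ∧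
          ∀ i ≤ H.min' hH, 2 * k ^ h ≤ (Sq w i).ncard) ∧
    (∀ n, (2 * h + 5) * 40 ^ (k ^ h) ≤ n →
      ∃ w : List (Option (Fin k)), w.length = n ∧ {j : ℕ | w[j]? = some none}.ncard = h ∧
        n ≤ (2 * h + 5) * 40 ^ (k ^ h) *
          {i : ℕ | i < n ∧ 2 * k ^ h ≤ (Sq w i).ncard}.ncard) := by
  refine ⟨fun H hH hc n hn => part1 k h hk H hH hc n hn, ?_⟩
  intro n hn
  obtain ⟨K, hK⟩ : ∃ K, K = 40 ^ (k ^ h) := ⟨_, rfl⟩
  have hKpos : 0 < K := by rw [hK]; positivity
  rw [← hK] at hn ⊢
  obtain ⟨C, hC⟩ : ∃ C, C = (2 * h + 5) * K := ⟨_, rfl⟩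
  have hCpos : 0 < C := by rw [hC]; positivity
  rw [← hC] at hn ⊢
  obtain ⟨m, hm⟩ : ∃ m, m = n / C := ⟨_, rfl⟩
  have hm1 : 1 ≤ m := by rw [hm]; exact (Nat.one_le_div_iff hCpos).2 hn
  have hmn : C * m ≤ n := by rw [hm]; exact Nat.mul_div_le n C
  have hmn2 : n ≤ C * (m + 1) := by
    rw [hm]; exact (Nat.lt_mul_div_succ n hCpos).le
  obtain ⟨H, hHdef⟩ : ∃ H, H = Finset.Ico m (m + h) := ⟨_, rfl⟩
  have hHne : H.Nonempty := by rw [hHdef]; exact Finset.nonempty_Ico.2 (by omega)
  have hHc : H.card = h := by rw [hHdef]; simp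
  have hmax : H.max' hHne ≤ m + h - 1 := by
    apply Finset.max'_le
    intro y hy
    rw [hHdef, Finset.mem_Ico] at hy
    omega
  have hmin : m ≤ H.min' hHne := by
    apply Finset.le_min'
    intro y hy
    rw [hHdef, Finset.mem_Ico] at hy
    omega
  have hbig : (2 * H.max' hHne + 5) * 40 ^ (k ^ h) ≤ n := by
    rw [← hK]
    refine le_trans ?_ hmn
    rw [hC]
    have h1 : 2 * H.max' hHne + 5 ≤ (2 * h + 5) * m := by
      have : 2 * h + 3 ≤ (2 * h + 3) * m := Nat.le_mul_of_pos_right _ hm1
      have e : (2 * h + 5) * m = (2 * h + 3) * m + 2 * m := by ring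
      omega
    calc (2 * H.max' hHne + 5) * K ≤ ((2 * h + 5) * m) * K := Nat.mul_le_mul_right _ h1
      _ = (2 * h + 5) * K * m := by ring
  obtain ⟨w, hwlen, hwH, hw⟩ := part1 k h hk H hHne hHc n hbig
  refine ⟨w, hwlen, ?_, ?_⟩
  · have : {j : ℕ | w[j]? = some none} = (H : Set ℕ) := by
      ext j
      simp only [Set.mem_ofPred_eq, Finset.mem_coe]
      exact hwH j
    rw [this, Set.ncard_coe_finset, hHc]
  · refine hmn2.trans (Nat.mul_le_mul_left _ ?_)
    have hsub : ((Finset.range (m + 1) : Finset ℕ) : Set ℕ) ⊆
        {i : ℕ | i < n ∧ 2 * k ^ h ≤ (Sq w i).ncard} := by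
      intro i hi
      rw [Finset.mem_coe, Finset.mem_range] at hi
      refine ⟨?_, hw i (by omega)⟩
      have : 7 * m ≤ C * m := by
        apply Nat.mul_le_mul_right
        rw [hC]
        calc 7 ≤ (2 * h + 5) * 1 := by omega
          _ ≤ (2 * h + 5) * K := Nat.mul_le_mul_left _ hKpos
      omega
    have hfin : {i : ℕ | i < n ∧ 2 * k ^ h ≤ (Sq w i).ncard}.Finite :=
      (Set.finite_lt_nat n).subset (fun i hi => hi.1)
    have := Set.ncard_le_ncard hsub hfin
    rw [Set.ncard_coe_finset, Finset.card_range] at this
    exact this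

end Pool.Agent.Results.MP_922422_co.LinearlyManyExtremal
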